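import Pool.Agent.SGE.Stmts

/-!
# Squad SGE, module POS: integer positions
-/

set_option autoImplicit false
set_option linter.unusedSectionVars false

noncomputable section

namespace Pool.Agent.SGE.H46

open Pool.Agent.SGE

variable {V : Type} [Fintype V] [DecidableEq V]

open Classical in
/-- the number of elements of `A` on the left of `v` -/
def kk (x : V → ℝ) (A : Finset V) (v : V) : ℕ := (A.filter (fun s => x s < x v)).card

open Classical in
/-- the number of the vertices outside of `A` on the left of `v`, with the same `kk` -/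
def mm (x : V → ℝ) (A : Finset V) (v : V) : ℕ :=
  (Finset.univ.filter (fun w => w ∉ A ∧ kk x A w = kk x A v ∧ x w < x v)).card

/-- the position -/
def pos (n r : ℕ) (x : V → ℝ) (A : Finset V) (v : V) : ℕ :=
  if v ∈ A then 4 * (n + 1) * (kk x A v + 1) else 4 * (n + 1) * kk x A v + 4 * mm x A v + r

theorem kk_mono (x : V → ℝ) (A : Finset V) {u w : V} (h : x u < x w) :
    kk x A u ≤ kk x A w := by
  classical
  unfold kk
  refine Finset.card_le_card fun s hs => ?_
  rw [Finset.mem_filter] at hs ⊢
  exact ⟨hs.1, hs.2.trans h⟩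

theorem kk_lt (x : V → ℝ) (A : Finset V) {u w : V} (hu : u ∈ A) (h : x u < x w) :
    kk x A u < kk x A w := by
  classical
  unfold kk
  refine Finset.card_lt_card ?_
  rw [Finset.ssubset_iff_of_subset]
  · exact ⟨u, Finset.mem_filter.2 ⟨hu, h⟩, fun h' => lt_irrefl _ (Finset.mem_filter.1 h').2⟩
  · intro s hs
    rw [Finset.mem_filter] at hs ⊢
    exact ⟨hs.1, hs.2.trans h⟩

theorem kk_le (x : V → ℝ) (A : Finset V) (v : V) : kk x A v ≤ A.card := by
  classical
  exact Finset.card_filter_le _ _

theorem kk_lt_card (x : V → ℝ) (A : Finset V) {v : V} (hv : v ∈ A) : kk x A v < A.card := by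
  classical
  unfold kk
  refine Finset.card_lt_card ?_
  rw [Finset.ssubset_iff_of_subset (Finset.filter_subset _ _)]
  exact ⟨v, hv, fun h' => lt_irrefl _ (Finset.mem_filter.1 h').2⟩

theorem mm_lt (x : V → ℝ) (A : Finset V) {u w : V} (hu : u ∉ A) (h : x u < x w)
    (hk : kk x A u = kk x A w) : mm x A u < mm x A w := by
  classical
  unfold mm
  refine Finset.card_lt_card ?_
  rw [Finset.ssubset_iff_of_subset]
  · exact ⟨u, Finset.mem_filter.2 ⟨Finset.mem_univ _, hu, hk, h⟩,
      fun h' => lt_irrefl _ (Finset.mem_filter.1 h').2.2.2⟩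
  · intro s hs
    rw [Finset.mem_filter] at hs ⊢
    exact ⟨hs.1, hs.2.1, hs.2.2.1.trans hk, hs.2.2.2.trans h⟩

theorem mm_lt_card (x : V → ℝ) (A : Finset V) (v : V) : mm x A v < Fintype.card V := by
  classical
  unfold mm
  refine Finset.card_lt_univ_of_notMem (x := v) ?_
  intro h
  exact lt_irrefl _ (Finset.mem_filter.1 h).2.2.2

theorem pos_lt {n r : ℕ} (hn : Fintype.card V ≤ n) (h1 : 1 ≤ r) (h3 : r ≤ 3) (x : V → ℝ)
    (A : Finset V) {u w : V} (h : x u < x w) : pos n r x A u < pos n r x A w := by
  have hm := mm_lt_card x A u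
  have hc : 4 * mm x A u + r < 4 * (n + 1) := by omega
  unfold pos
  by_cases hu : u ∈ A
  · have hk := kk_lt x A hu h
    rw [if_pos hu]
    by_cases hw : w ∈ A
    · rw [if_pos hw]
      exact Nat.mul_lt_mul_of_pos_left (by omega) (by omega)
    · rw [if_neg hw]
      have h4 : 4 * (n + 1) * (kk x A u + 1) ≤ 4 * (n + 1) * kk x A w :=
        Nat.mul_le_mul_left _ (by omega)
      omega
  · rw [if_neg hu]
    have hk := kk_mono x A h
    by_cases hw : w ∈ A
    · rw [if_pos hw]
      have h4 : 4 * (n + 1) * (kk x A u + 1) ≤ 4 * (n + 1) * (kk x A w + 1) :=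
        Nat.mul_le_mul_left _ (by omega)
      have h5 : 4 * (n + 1) * (kk x A u + 1) = 4 * (n + 1) * kk x A u + 4 * (n + 1) := by ring
      omega
    · rw [if_neg hw]
      rcases Nat.eq_or_lt_of_le hk with he | hlt
      · have h4 := mm_lt x A hu h he
        rw [he]
        omega
      · have h4 : 4 * (n + 1) * (kk x A u + 1) ≤ 4 * (n + 1) * kk x A w :=
          Nat.mul_le_mul_left _ (by omega)
        have h5 : 4 * (n + 1) * (kk x A u + 1) = 4 * (n + 1) * kk x A u + 4 * (n + 1) := by
          ring
        omega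

theorem pos_iff {n r : ℕ} (hn : Fintype.card V ≤ n) (h1 : 1 ≤ r) (h3 : r ≤ 3) {x : V → ℝ}
    (hx : Function.Injective x) (A : Finset V) (u w : V) :
    pos n r x A u < pos n r x A w ↔ x u < x w := by
  constructor
  · intro h
    by_contra hc
    rcases lt_or_eq_of_le (not_lt.1 hc) with h4 | h4
    · have := pos_lt hn h1 h3 x A h4
      omega
    · have h5 : w = u := hx h4
      rw [h5] at h
      omega
  · exact fun h => pos_lt hn h1 h3 x A h

theorem pos_mod {n r : ℕ} (h3 : r ≤ 3) (x : V → ℝ) {A : Finset V} {v : V} (hv : v ∉ A) :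
    pos n r x A v % 4 = r := by
  unfold pos
  rw [if_neg hv, mul_assoc]
  omega

theorem pos_le {n r : ℕ} (hn : Fintype.card V ≤ n) (h3 : r ≤ 3) (x : V → ℝ) (A : Finset V)
    (v : V) : pos n r x A v ≤ 4 * (n + 1) ^ 2 := by
  have hm := mm_lt_card x A v
  have hA : A.card ≤ Fintype.card V := Finset.card_le_univ A
  have hk := kk_le x A v
  have h4 : 4 * (n + 1) * (kk x A v + 1) ≤ 4 * (n + 1) * (n + 1) :=
    Nat.mul_le_mul_left _ (by omega)
  have h5 : 4 * (n + 1) * (n + 1) = 4 * (n + 1) ^ 2 := by ring
  unfold pos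
  split_ifs
  · omega
  · have h6 : 4 * (n + 1) * (kk x A v + 1) = 4 * (n + 1) * kk x A v + 4 * (n + 1) := by ring
    omega

/-- POS -/
theorem posi : PosStmt := by
  intro V _ _ n hn x y hx hy A hA r h1 h3
  refine ⟨pos n r x A, pos n r y A, pos_iff hn h1 h3 hx A, pos_iff hn h1 h3 hy A,
    fun v hv => ⟨pos_mod h3 x hv, pos_mod h3 y hv⟩, ?_,
    fun v => ⟨pos_le hn h3 x A v, pos_le hn h3 y A v⟩, ?_⟩
  · intro v hv
    unfold pos
    rw [if_pos hv, if_pos hv]
    have h : kk x A v = kk y A v := by
      classical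
      unfold kk
      congr 1
      refine Finset.filter_congr fun s hs => ?_
      exact hA s hs v hv
    rw [h]
  · have h : A.image (kk x A) = Finset.range A.card := by
      refine Finset.eq_of_subset_of_card_le ?_ ?_
      · intro k hk
        obtain ⟨v, hv, rfl⟩ := Finset.mem_image.1 hk
        exact Finset.mem_range.2 (kk_lt_card x A hv)
      · rw [Finset.card_range, Finset.card_image_of_injOn]
        intro u hu w hw he
        by_contra hne
        rcases lt_or_gt_of_ne (fun h => hne (hx h)) with h4 | h4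
        · have := kk_lt x A hu h4
          exact absurd he (by simpa using this.ne)
        · have := kk_lt x A hw h4
          exact absurd he.symm (by simpa using this.ne)
    rw [← h, Finset.image_image]
    refine Finset.image_congr fun v hv => ?_
    unfold pos
    rw [if_pos (by simpa using hv)]
    rfl

end Pool.Agent.SGE.H46
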